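import Mathlib
import Pool.Agent.H78.OM.Export

set_option autoImplicit false

namespace Pool.Agent.Results.MP_7169d5_nt.AllModuli

open Finset

/-- Let `k, m ≥ 1`, `p0` be integers and `ε > 0`. There are `z`, `K` and `X0` such that for
all `X ≥ X0`, all completely additive `g : ℕ → ZMod k` with `g p = 1` for the primes
`p ≡ 1 mod m` with `p0 ≤ p ≤ z` and all `s`, at least `X ^ (1 - ε)` of the integers
`1 ≤ a ≤ X` satisfy `Ω (a ^ 2 + 1) ≤ K` and `g (a ^ 2 + 1) = 2 * s`. -/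
theorem result (k : ℕ) (hk : 0 < k) (m : ℕ) (hm : 0 < m) (p0 : ℕ) (ε : ℝ) (hε : 0 < ε) :
    ∃ z K X0 : ℕ, ∀ X : ℕ, X0 ≤ X → ∀ g : ℕ → ZMod k,
      (∀ u v : ℕ, u ≠ 0 → v ≠ 0 → g (u * v) = g u + g v) →
      (∀ p : ℕ, p.Prime → p0 ≤ p → p ≤ z → p ≡ 1 [MOD m] → g p = 1) → ∀ s : ZMod k,
      (X : ℝ) ^ (1 - ε) ≤ (((Icc 1 X).filter (fun a =>
        ArithmeticFunction.cardFactors (a ^ 2 + 1) ≤ K ∧ g (a ^ 2 + 1) = 2 * s)).card : ℝ) :=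
  Pool.Agent.H78.OM.allModuli k m p0 hk hm ε hε

end Pool.Agent.Results.MP_7169d5_nt.AllModuli
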