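import Mathlib
import Pool.Agent.FCH.FinC
import Pool.Agent.FCH.FinV

set_option autoImplicit false

/-!
# `Ω(a² + 1)` is equidistributed modulo every `k` over the balanced factorisations, at almost all scales
-/

open Finset

namespace Pool.Agent.Results.MP_7169d5_nt.EquidistributionAlmostAllScales

/-- `Fac b m q a₀`: the triples `(a, m₁, m₂)` of integers `1 ≤ a, m₁, m₂ ≤ m` with `a² + 1 = m₁ m₂`,
`m / b < m₁, m₂` and `a ≡ a₀ (mod q)`. -/
noncomputable def Fac (b : ℝ) (m q : ℕ) (a₀ : ℤ) : Finset (ℕ × ℕ × ℕ) :=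
  open Classical in
  ((Icc 1 m) ×ˢ ((Icc 1 m) ×ˢ (Icc 1 m))).filter (fun t => t.1 ^ 2 + 1 = t.2.1 * t.2.2 ∧
    ((m : ℝ) / b < t.2.1 ∧ (m : ℝ) / b < t.2.2) ∧ (q : ℤ) ∣ (t.1 : ℤ) - a₀)

/-- `FacMod b m q a₀ k j`: those with `Ω(a² + 1) ≡ j (mod k)`. -/
noncomputable def FacMod (b : ℝ) (m q : ℕ) (a₀ : ℤ) (k j : ℕ) : Finset (ℕ × ℕ × ℕ) :=
  open Classical in
  (Fac b m q a₀).filter (fun t => ArithmeticFunction.cardFactors (t.1 ^ 2 + 1) ≡ j [MOD k])

/-- `Val m q a₀ k j`: the integers `1 ≤ a ≤ m`, `a ≡ a₀ (mod q)`, with `Ω(a² + 1) ≡ j (mod k)`. -/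
noncomputable def Val (m q : ℕ) (a₀ : ℤ) (k j : ℕ) : Finset ℕ :=
  open Classical in
  (Icc 1 m).filter (fun a => (q : ℤ) ∣ (a : ℤ) - a₀ ∧
    ArithmeticFunction.cardFactors (a ^ 2 + 1) ≡ j [MOD k])

/-- For all `k, q ≥ 1`, `a₀` and `b > 1`: `Fac b m q a₀` has at least `c m` elements for all `m ≥ m₀`, and for every
`ε > 0` and all `X ≥ X₀` the `m ≤ X` for which some class `j` mod `k` has a proportion different from `1/k` by
more than `ε` have `∑ 1/m ≤ ε log X`.  Moreover for every `ε > 0` there is `c > 0` such that for every `δ > 0` and all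
`X ≥ X₀` the `m ≤ X` for which some class `j` mod `k` contains `Ω(a² + 1)` for fewer than
`c m / (log m) ^ (2 log 2 + ε)` of the `a ≤ m`, `a ≡ a₀ (mod q)`, have `∑ 1/m ≤ δ log X`. -/
theorem result (k q : ℕ) (hk : 1 ≤ k) (hq : 1 ≤ q) (a₀ : ℤ) (b : ℝ) (hb : 1 < b) :
    (∃ c : ℝ, 0 < c ∧ ∃ m₀ : ℕ, ∀ m : ℕ, m₀ ≤ m → c * m ≤ ((Fac b m q a₀).card : ℝ)) ∧
    (∀ ε : ℝ, 0 < ε → ∃ X₀ : ℕ, ∀ X : ℕ, X₀ ≤ X → open Classical in
      ∑ m ∈ (Icc 1 X).filter (fun m => ∃ j : ℕ,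
        ε * (Fac b m q a₀).card < |((FacMod b m q a₀ k j).card : ℝ) - (Fac b m q a₀).card / k|),
        1 / (m : ℝ) ≤ ε * Real.log X) ∧
    (∀ ε : ℝ, 0 < ε → ∃ c : ℝ, 0 < c ∧ ∀ δ : ℝ, 0 < δ → ∃ X₀ : ℕ, ∀ X : ℕ, X₀ ≤ X → open Classical in
      ∑ m ∈ (Icc 1 X).filter (fun m => ∃ j : ℕ, ((Val m q a₀ k j).card : ℝ) <
        c * m / (Real.log m) ^ (2 * Real.log 2 + ε)), 1 / (m : ℝ) ≤ δ * Real.log X) := by
  classical
  refine ⟨Pool.Agent.FCH.fac_lower b hb q hq a₀, ?_, fun ε hε => Pool.Agent.FCH.fin_val k hk q hq a₀ ε hε⟩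
  intro ε hε
  obtain ⟨c, hc, h⟩ := Pool.Agent.FCH.fin_main k hk q hq a₀ b hb
  have hk0 : (0 : ℝ) < k := by exact_mod_cast hk
  have hk1 : (1 : ℝ) ≤ k := by exact_mod_cast hk
  obtain ⟨X₀, hX⟩ := h (ε / k) (by positivity)
  refine ⟨X₀, fun X hXX => ?_⟩
  have h1 : ∀ m : ℕ, (Fac b m q a₀) = Pool.Agent.FCH.fac b m q a₀ := fun m => rfl
  have h2 : ∀ m j : ℕ, (FacMod b m q a₀ k j) = Pool.Agent.FCH.facj b m q a₀ k j := fun m j => rfl
  have h3 : ∀ m j : ℕ, FacMod b m q a₀ k j = FacMod b m q a₀ k (j % k) := by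
    intro m j
    unfold FacMod
    apply Finset.filter_congr
    intro t _
    unfold Nat.ModEq
    rw [Nat.mod_mod]
  set G : ℕ → Finset ℕ := fun j => (Icc 1 X).filter (fun m => ¬ (c * m ≤ ((Pool.Agent.FCH.fac b m q a₀).card : ℝ) ∧
      |((Pool.Agent.FCH.facj b m q a₀ k j).card : ℝ) - (Pool.Agent.FCH.fac b m q a₀).card / k| ≤
        ε / k * (Pool.Agent.FCH.fac b m q a₀).card)) with hG
  have hsub : (Icc 1 X).filter (fun m => ∃ j : ℕ,
        ε * (Fac b m q a₀).card < |((FacMod b m q a₀ k j).card : ℝ) - (Fac b m q a₀).card / k|) ⊆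
      (range k).biUnion G := by
    intro m hm
    rw [mem_filter] at hm
    obtain ⟨hm1, j, hj⟩ := hm
    rw [mem_biUnion]
    refine ⟨j % k, mem_range.2 (Nat.mod_lt _ hk), ?_⟩
    rw [hG, mem_filter]
    refine ⟨hm1, ?_⟩
    rintro ⟨_, h5⟩
    rw [h3 m j, h1, h2] at hj
    have h6 : ε / k * ((Pool.Agent.FCH.fac b m q a₀).card : ℝ) ≤ ε * (Pool.Agent.FCH.fac b m q a₀).card := by
      apply mul_le_mul_of_nonneg_right _ (Nat.cast_nonneg _)
      exact div_le_self hε.le hk1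
    linarith
  calc ∑ m ∈ (Icc 1 X).filter (fun m => ∃ j : ℕ,
        ε * (Fac b m q a₀).card < |((FacMod b m q a₀ k j).card : ℝ) - (Fac b m q a₀).card / k|), 1 / (m : ℝ)
      ≤ ∑ m ∈ (range k).biUnion G, 1 / (m : ℝ) :=
        sum_le_sum_of_subset_of_nonneg hsub (fun i _ _ => by positivity)
    _ ≤ ∑ j ∈ range k, ∑ m ∈ G j, 1 / (m : ℝ) := by
        have key : ∀ T : Finset ℕ, ∑ m ∈ T.biUnion G, 1 / (m : ℝ) ≤ ∑ j ∈ T, ∑ m ∈ G j, 1 / (m : ℝ) := by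
          intro T
          induction T using Finset.induction_on with
          | empty => simp
          | insert a T ha ih =>
            rw [Finset.biUnion_insert, Finset.sum_insert ha]
            have h7 := Finset.sum_union_inter (s₁ := G a) (s₂ := T.biUnion G) (f := fun m : ℕ => 1 / (m : ℝ))
            have h8 : 0 ≤ ∑ m ∈ G a ∩ T.biUnion G, 1 / (m : ℝ) := sum_nonneg (fun i _ => by positivity)
            linarith
        exact key _
    _ ≤ ∑ j ∈ range k, ε / k * Real.log X := sum_le_sum (fun j _ => hX X hXX j)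
    _ = ε * Real.log X := by
        rw [sum_const, card_range, nsmul_eq_mul]
        field_simp

end Pool.Agent.Results.MP_7169d5_nt.EquidistributionAlmostAllScales
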