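import Mathlib
import Pool.Agent.MRS.Fin2

set_option autoImplicit false

/-!
# `Ω(a² + 1)` modulo `k` is never almost constant

A Matomäki-Radziwiłł theorem for functions of the norm in narrow sectors of the Gaussian integers,
combined with the Farey graph of unimodular pairs `(x, y)`, `N(x) N(y) = a² + 1`.
-/

open Finset

namespace Pool.Agent.Results.MP_7169d5_nt.NoAlmostConstantClass

/-- First part: for all `k ≥ 2`, `p₀`, `b ∈ {0, 1}` and `ε > 0` there are `c > 0` and `X₀` such that for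
all `X ≥ X₀`, all completely additive `g : ℕ → ℤ/k` and all classes `j` with `g(p) ≠ 0` for some prime
`p ≡ 1 (mod 4)`, `p ≤ p₀` (or `j` not of the form `2 i + b g(2)`): at least `c X / (log X)^(2 log 2 + ε)`
integers `1 ≤ a ≤ X`, `a ≡ b (mod 2)`, have `g(a² + 1) ≠ j`, and these `a` have together at least `c X` divisors
`m ∣ a² + 1` with `m ≤ X` and `(a² + 1) / m ≤ X`.
Second part: all `1 ≤ a ≤ X` have together at most `C X` such divisors. -/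
theorem result :
    (∀ k : ℕ, 2 ≤ k → ∀ p₀ b : ℕ, b < 2 → ∀ ε : ℝ, 0 < ε →
      ∃ c X₀ : ℝ, 0 < c ∧ ∀ X : ℝ, X₀ ≤ X →
      ∀ (g : ℕ → ZMod k) (j : ZMod k), (∀ m n : ℕ, 0 < m → 0 < n → g (m * n) = g m + g n) →
      ((∃ p : ℕ, p ≤ p₀ ∧ p.Prime ∧ p % 4 = 1 ∧ g p ≠ 0) ∨
        ∀ i : ZMod k, 2 * i + (b : ZMod k) * g 2 ≠ j) →
      c * X / (Real.log X) ^ (2 * Real.log 2 + ε) ≤
        (((Icc 1 ⌊X⌋₊).filter (fun a : ℕ => a % 2 = b ∧ g (a ^ 2 + 1) ≠ j)).card : ℝ) ∧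
      c * X ≤ ∑ a ∈ (Icc 1 ⌊X⌋₊).filter (fun a : ℕ => a % 2 = b ∧ g (a ^ 2 + 1) ≠ j),
        (((a ^ 2 + 1).divisors.filter
          (fun m : ℕ => (m : ℝ) ≤ X ∧ ((a ^ 2 + 1 : ℕ) : ℝ) ≤ m * X)).card : ℝ)) ∧
    (∃ C : ℝ, ∀ X : ℝ, 1 ≤ X →
      ∑ a ∈ Icc 1 ⌊X⌋₊, (((a ^ 2 + 1).divisors.filter
        (fun m : ℕ => (m : ℝ) ≤ X ∧ ((a ^ 2 + 1 : ℕ) : ℝ) ≤ m * X)).card : ℝ) ≤ C * X) :=
  ⟨fun k hk p₀ b hb ε hε => Pool.Agent.MRS.final2 k hk p₀ b hb ε hε, Pool.Agent.MRS.total⟩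

end Pool.Agent.Results.MP_7169d5_nt.NoAlmostConstantClass
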