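import Mathlib
import Pool.Agent.H96.OMLocal
import Pool.Agent.H96.OMCount

set_option autoImplicit false

namespace Pool.Agent.Results.MP_7169d5_nt.Progressions

open Finset

/-- Let `k, m ≥ 1`, `b`, `p0` be integers and `ε > 0`. There are `z`, `K` and `X0` such that for
all `X ≥ X0` and all completely additive `g : ℕ → ZMod k` with `g p = 1` for the primes
`p ≡ 1 mod m` with `p0 ≤ p ≤ z` there is a class `t` such that for every class `s` at least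
`X ^ (1 - ε)` of the integers `1 ≤ a ≤ X` satisfy `a ≡ b mod m`, `Ω (a ^ 2 + 1) ≤ K` and
`g (a ^ 2 + 1) = t + 2 * s`. For odd `k` these are all the classes. -/
theorem result (k : ℕ) (hk : 0 < k) (m : ℕ) (hm : 0 < m) (b p0 : ℕ) (ε : ℝ) (hε : 0 < ε) :
    ∃ z K X0 : ℕ, ∀ X : ℕ, X0 ≤ X → ∀ g : ℕ → ZMod k,
      (∀ u v : ℕ, u ≠ 0 → v ≠ 0 → g (u * v) = g u + g v) →
      (∀ p : ℕ, p.Prime → p0 ≤ p → p ≤ z → p ≡ 1 [MOD m] → g p = 1) →
      ∃ t : ZMod k, ∀ s : ZMod k,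
      (X : ℝ) ^ (1 - ε) ≤ ((Icc 1 X).filter (fun a => a ≡ b [MOD m] ∧
        ArithmeticFunction.cardFactors (a ^ 2 + 1) ≤ K ∧ g (a ^ 2 + 1) = t + 2 * s)).card := by
  have : NeZero k := ⟨hk.ne'⟩
  obtain ⟨E, Q, s0, z, hQ, hmQ, hE, hE2, hs0, hU⟩ :=
    Pool.Agent.H96.OM.exists_star k m b p0 hk hm
  obtain ⟨K, X0, hcount⟩ := Pool.Agent.H96.OM.count' hQ hmQ hE hE2 ε hε
  refine ⟨z, K, X0, ?_⟩
  intro X hX g hg hgp
  obtain ⟨t, ht⟩ := hcount X hX k g hg (by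
    intro c
    obtain ⟨s, hs⟩ := hU g hg hgp c
    obtain ⟨t, u, htu⟩ : ∃ t : Fin 2, ∃ u : ℕ, s.val = t.val + 2 * u := by
      refine ⟨⟨s.val % 2, Nat.mod_lt _ two_pos⟩, s.val / 2, ?_⟩
      simp only
      omega
    refine ⟨t, ?_⟩
    intro j
    obtain ⟨x, hx, hxs⟩ := hs (u - j)
    refine ⟨x, hx, hxs.trans ?_⟩
    have h1 : s = ((t.val + 2 * u : ℕ) : ZMod k) := by
      rw [← htu, ZMod.natCast_val, ZMod.cast_id]
    rw [h1]
    push_cast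
    ring)
  refine ⟨t.val, ?_⟩
  intro s
  refine (ht s).trans ?_
  norm_cast
  apply card_le_card
  intro a ha
  rw [mem_filter] at ha ⊢
  refine ⟨ha.1, ?_, ha.2.2⟩
  have h1 : a + s0 ≡ b + s0 [MOD m] := by
    have h2 : a + s0 ≡ 0 [MOD m] := (Nat.modEq_zero_iff_dvd).2 ha.2.1
    have h3 : b + s0 ≡ 0 [MOD m] := by rw [add_comm]; exact hs0
    exact h2.trans h3.symm
  exact Nat.ModEq.add_right_cancel' s0 h1

end Pool.Agent.Results.MP_7169d5_nt.Progressions
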